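import Pool.Agent.V8H76.BB.MidDefs

/-!
# Bloch-Beilinson filtrations with the Abel-Jacobi condition: definitions
-/

set_option autoImplicit false

open CategoryTheory AlgebraicGeometry

universe u v w

namespace Pool.Agent.V8H79.AJ

open Pool.Agent.H914 Pool.Agent.H914.VarClass Pool.Agent.H914.VarClass.Obj Pool.Agent.W492.BB
  Pool.Agent.TH133 Pool.Agent.V8H76.BB

variable {k : Type u} [Field k] {𝒱 : VarClass k}

/-- The data of Abel-Jacobi maps for the Chow groups `C`: rational vector spaces `J X i` (the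
intermediate Jacobians `J^(2i-1)(X) ⊗ ℚ`), the Abel-Jacobi maps `aj X i` (only their values at the
homologically trivial classes in `CH^i(X)` are used; `aj X i` is an arbitrary linear extension), and
the maps `J^(2i-1)(X) ⊗ ℚ → J^(2j-1)(Y) ⊗ ℚ` induced by the correspondences from `X` to `Y`. -/
structure AbelJacobiData (C : TheoryData.{u, v, 0} 𝒱 ℚ) where
  J : 𝒱.Obj → ℕ → Type v
  [group : ∀ X i, AddCommGroup (J X i)]
  [module : ∀ X i, Module ℚ (J X i)]
  /-- the Abel-Jacobi map -/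
  aj : ∀ (X : 𝒱.Obj) (i : ℕ), C.A X →ₗ[ℚ] J X i
  /-- the action of correspondences on the intermediate Jacobians -/
  act : ∀ {X Y : 𝒱.Obj} (i j : ℕ), C.A (X.prod Y) → (J X i →ₗ[ℚ] J Y j)

attribute [instance] AbelJacobiData.group AbelJacobiData.module

variable {C : TheoryData.{u, v, 0} 𝒱 ℚ} {K : Type w} [Field K] (H : WeilTheoryData.{u, v, w} C K)
  (A : AbelJacobiData C)

/-- The formal properties of the Abel-Jacobi maps: they commute with correspondences, and the
correspondences from `X` to `Y` which act as zero on `H^(2i-1)(X)` act as zero on the intermediate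
Jacobian `J^(2i-1)(X) ⊗ ℚ` (which depends only on the Hodge structure `H^(2i-1)(X)`). -/
structure IsAbelJacobi : Prop where
  natural : ∀ (X Y : 𝒱.Obj) (i j : ℕ) (Γ : C.A (X.prod Y)) (z : C.A X), C.Deg (X.dim + j - i) Γ →
    HomTriv H i z → A.aj Y j (C.act Γ z) = A.act i j Γ (A.aj X i z)
  weight : ∀ (X Y : 𝒱.Obj) (i j : ℕ) (Γ : C.A (X.prod Y)), C.Deg (X.dim + j - i) Γ →
    Kills H Γ (2 * i - 1) → ∀ x : A.J X i, A.act i j Γ x = 0

/-- A Bloch-Beilinson filtration in the sense of the problem: `F^0 = CH^i(X)`, `F^1` consists of the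
homologically trivial classes, `F^2` of those with zero Abel-Jacobi image, `F^(i+1) CH^i(X) = 0`;
all correspondences `Γ` from `X` to `Y`, of any degree, respect the filtrations, and `Γ` acts as zero
on the graded piece `gr^n CH^i(X)` if it acts as zero on `H^(2i-n)(X)`. -/
structure IsBBFiltration (F : Filtration C) : Prop where
  zero : ∀ (X : 𝒱.Obj) (i : ℕ) (x : C.A X), F.Mem i 0 x ↔ C.Deg i x
  one : ∀ (X : 𝒱.Obj) (i : ℕ) (x : C.A X), F.Mem i 1 x ↔ HomTriv H i x
  two : ∀ (X : 𝒱.Obj) (i : ℕ) (x : C.A X), F.Mem i 2 x ↔ HomTriv H i x ∧ A.aj X i x = 0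
  top : ∀ (X : 𝒱.Obj) (i : ℕ) (x : C.A X), F.Mem i (i + 1) x → x = 0
  stable : ∀ (X Y : 𝒱.Obj) (i j n : ℕ) (Γ : C.A (X.prod Y)), C.Deg (X.dim + j - i) Γ →
    ∀ x, F.Mem i n x → F.Mem j n (C.act Γ x)
  graded : ∀ (X Y : 𝒱.Obj) (i j n : ℕ) (Γ : C.A (X.prod Y)), C.Deg (X.dim + j - i) Γ →
    Kills H Γ (2 * i - n) → ∀ x, F.Mem i n x → F.Mem j (n + 1) (C.act Γ x)

/-- The Abel-Jacobi map is injective on the part `π_(2i-1) CH^i(X)` of the homologically trivial
cycles of codimension `i` on the varieties `X` of dimension `2 i - 1`, for all Chow-Künneth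
decompositions `π` of `X`. -/
def MiddleAbelJacobi (i : ℕ) : Prop :=
  ∀ X : 𝒱.Obj, X.dim + 1 = 2 * i → ∀ π, IsCK H X π → ∀ z : C.A X, HomTriv H i z →
    A.aj X i z = 0 → C.act (π (2 * i - 1)) z = 0

/-- If `X` has the odd dimension `2 i - 1`, then the Abel-Jacobi map is injective on the part
`π_(2i-1) CH^i(X)` of the homologically trivial cycles of codimension `i` on `X`. -/
def AbelJacobiInjective {X : 𝒱.Obj} (π : ℕ → C.A (X.prod X)) : Prop :=
  ∀ i : ℕ, X.dim + 1 = 2 * i → ∀ z : C.A X, HomTriv H i z → A.aj X i z = 0 →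
    C.act (π X.dim) z = 0

end Pool.Agent.V8H79.AJ
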