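import Pool.Agent.V8H79.AJ.Main
import Pool.Agent.V8H76.BB.SemiMain

/-!
# Bloch-Beilinson filtrations with the Abel-Jacobi condition: equivalences
-/

set_option autoImplicit false

open CategoryTheory AlgebraicGeometry

universe u v w

namespace Pool.Agent.V8H79.AJ

open Pool.Agent.H914 Pool.Agent.H914.VarClass Pool.Agent.H914.VarClass.Obj Pool.Agent.W492.BB
  Pool.Agent.W550.Corr Pool.Agent.TH133 Pool.Agent.X308.S Pool.Agent.Y148.BB Pool.Agent.V8H76.BB
  Pool.Agent.V8H79.HP

set_option linter.unusedSectionVars false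

section general

variable {k : Type u} [Field k] {𝒱 : VarClass k} {C : TheoryData.{u, v, 0} 𝒱 ℚ} {K : Type w}
  [Field K] [hC : IsChowProj C]
  {H : WeilTheoryData.{u, v, w} C K} [hH : IsWeilProj H] {X Y Z W : 𝒱.Obj}
  {ample : ∀ X : 𝒱.Obj, Set (C.A X)} {A : AbelJacobiData C} {F : Filtration C}

include hC hH

lemma pi_mem (hF : IsBBFiltration H A F) {π : ℕ → C.A (X.prod X)} (hπ : IsCK H X π) {i w : ℕ}
    {x : C.A X} (hx : C.Deg i x) : ∀ n, w + n ≤ 2 * i → C.act (π w) x ∈ F.F X i n := by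
  have hdeg : C.Deg ((X.dim : ℤ) + i - i) (π w) := by
    rw [show (X.dim : ℤ) + i - i = X.dim by ring]
    exact hπ.deg w
  intro n
  induction n with
  | zero =>
    intro _
    exact hF.stable X X i i 0 (π w) hdeg x ((hF.zero X i x).2 hx)
  | succ n ih =>
    intro hn
    have h2 := hF.graded X X i i n (π w) hdeg (fun c hc =>
      hπ.act_ne w (2 * i - n) c (by omega) hc) _ (ih (by omega))
    rw [← C.act_comp, hπ.idem] at h2
    exact h2

/-- A Bloch-Beilinson filtration is the filtration attached to any Chow-Künneth decomposition. -/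
lemma eq_ckFil (hF : IsBBFiltration H A F) {π : ℕ → C.A (X.prod X)} (hπ : IsCK H X π) (i n : ℕ) :
    F.F X i n = ckFil C π i n := by
  ext x
  rw [hπ.mem_ckFil]
  constructor
  · intro hx
    refine ⟨(hF.zero X i x).1 (BB_le (H := H) F X i (Nat.zero_le n) hx), fun j hj => ?_⟩
    exact pi_zero hF hπ (n := n) (i := i) (fun s hs => by omega) hx
  · rintro ⟨hx, h⟩
    rw [ck_sum_act hπ x]
    refine Submodule.sum_mem _ fun w _ => ?_
    by_cases hw : 2 * i + 1 - n ≤ w
    · rw [h w hw]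
      exact Submodule.zero_mem _
    · exact pi_mem hF hπ hx n (by omega)

/-- Under the Künneth conjecture, a filtration as in the problem is multiplicative. -/
theorem isBB_of (hK : KunnethConjecture H) (hF : IsBBFiltration H A F) : IsBB H F where
  bounded := ⟨hF.zero, hF.one, hF.top⟩
  multiplicative :=
    { mul := by
        intro X i j m n x y hx hy
        obtain ⟨π, hπ⟩ := exists_CK (homNilpotent_of_BB hF) hK X
        have hx' : x ∈ ckFil C π i m := by
          rw [← eq_ckFil hF hπ]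
          exact hx
        have hy' : y ∈ ckFil C π j n := by
          rw [← eq_ckFil hF hπ]
          exact hy
        have h := ckFil_mul (fun i => lowWeights_of_BB hF i _) hπ hx' hy'
        rw [← eq_ckFil hF hπ] at h
        exact h
      pull := by
        intro X Y f i n y hy
        change C.pull f y ∈ F.F X i n
        rw [← C.act_cograph f y]
        refine hF.stable Y X i i n _ ?_ y hy
        have := cograph_mem (C := C) f
        rwa [show (Y.dim : ℤ) + i - i = Y.dim by ring]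
      push := by
        intro X Y f i j n x hij hx
        change C.push f x ∈ F.F Y j n
        rw [← C.act_graph f x]
        refine hF.stable X Y i j n _ ?_ x hx
        have h1 := C.push_mem (Obj.lift (𝟙 X) f) (C.one_mem X)
        have e1 : (0 : ℤ) + 1 * (((X.prod Y).dim : ℤ) - X.dim) = X.dim + j - i := by
          rw [dim_prod]; push_cast; omega
        rwa [e1] at h1 }
  motivic := by
    intro _ X i n Γ hΓ hk x hx
    refine hF.graded X X i i n Γ ?_ hk x hx
    rwa [show (X.dim : ℤ) + i - i = X.dim by ring]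

/-- Under the Künneth conjecture, the filtrations of the problem are the Bloch-Beilinson filtrations
with `F^2 = ker AJ`. -/
theorem isBBFiltration_of (hK : KunnethConjecture H) (hF : IsBB H F)
    (h2 : ∀ (X : 𝒱.Obj) (i : ℕ) (x : C.A X), F.Mem i 2 x ↔ HomTriv H i x ∧ A.aj X i x = 0) :
    IsBBFiltration H A F := by
  have hCK := exists_CK (V8H76.BB.homNilpotent_of_BB hF) hK
  have hlow := fun i => V8H76.BB.lowWeights_of_BB hF hK i
  refine ⟨hF.bounded.zero, hF.bounded.one, h2, hF.bounded.top, ?_, ?_⟩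
  · intro X Y i j n Γ hΓ x hx
    obtain ⟨π, hπ⟩ := hCK X
    obtain ⟨ρ, hρ⟩ := hCK Y
    change x ∈ F.F X i n at hx
    change C.act Γ x ∈ F.F Y j n
    rw [BB_eq_ckFil hF hK hπ] at hx
    rw [BB_eq_ckFil hF hK hρ]
    exact ckFil_stable (fun i => hlow i _) hπ hρ hΓ hx
  · intro X Y i j n Γ hΓ hk x hx
    obtain ⟨π, hπ⟩ := hCK X
    obtain ⟨ρ, hρ⟩ := hCK Y
    change x ∈ F.F X i n at hx
    change C.act Γ x ∈ F.F Y j (n + 1)
    rw [BB_eq_ckFil hF hK hπ] at hx
    rw [BB_eq_ckFil hF hK hρ]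
    exact ckFil_shift (fun i => hlow i _) hπ hρ hΓ hk hx

/-- The second power of homological equivalence is contained in the kernel of the Abel-Jacobi
map. -/
lemma aj_of_homPower (hA : IsAbelJacobi H A) {i : ℕ} {x : C.A X} (hx : x ∈ homPower H 2 X i) :
    A.aj X i x = 0 := by
  have h : homPower H 2 X i ≤ LinearMap.ker (A.aj X i) := by
    apply homPower_succ_le
    intro Z j z Γ hz hΓ
    rw [LinearMap.mem_ker, hA.natural Z X j i Γ z hΓ.1 (homTriv_of_mem_one hz)]
    refine hA.weight Z X j i Γ hΓ.1 (fun a _ => ?_) _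
    rw [hΓ.2, TheoryData.act_zero]
  exact h hx

/-- If the classes with trivial Abel-Jacobi image are in the second power of homological
equivalence, then the correspondences acting as zero on `H^m(X)`, `m < 2 i`, map homologically
trivial classes to the second power. -/
lemma secondPower_of (hA : IsAbelJacobi H A)
    (h : ∀ (X : 𝒱.Obj) (i : ℕ) (z : C.A X), HomTriv H i z → A.aj X i z = 0 →
      z ∈ homPower H 2 X i) : SecondPower H := by
  intro X i Γ hΓ hk z hz
  have hdeg : C.Deg ((X.dim : ℤ) + i - i) Γ := by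
    rwa [show (X.dim : ℤ) + i - i = X.dim by ring]
  refine h X i _ (act_homTriv hΓ hz (by ring)) ?_
  rw [hA.natural X X i i Γ z hdeg hz]
  exact hA.weight X X i i Γ hdeg (hk _ (by omega)) _

/-- **The kernel of the Abel-Jacobi map and the powers of homological equivalence.** -/
theorem tfae_kernel (hS : HasSections H ample) (hB : HasSmoothSupports H ample)
    (hA : IsAbelJacobi H A) :
    [LefschetzConjecture H ample ∧ (∃ F, IsBBFiltration H A F),
      LefschetzConjecture H ample ∧ IsBBFiltration H A (powFil H) ∧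
        (∀ F, IsBBFiltration H A F → F = powFil H),
      LefschetzConjecture H ample ∧ PowersVanish H ∧
        (∀ (X : 𝒱.Obj) (i : ℕ) (z : C.A X), HomTriv H i z → A.aj X i z = 0 →
          z ∈ homPower H 2 X i)].TFAE := by
  tfae_have 1 → 2 := by
    rintro ⟨hL, F, hF⟩
    have hK := kunneth_of_lefschetz hL hS
    have huniq : ∀ F, IsBBFiltration H A F → F = powFil H := fun F hF =>
      eq_powFil hL hS hB (isBB_of hK hF)
    have h1 := huniq F hF
    exact ⟨hL, h1 ▸ hF, huniq⟩
  tfae_have 2 → 3 := by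
    rintro ⟨hL, hF, -⟩
    exact ⟨hL, fun X i => ⟨i + 1, fun x hx => hF.top X i x hx⟩,
      fun X i z hz haj => (hF.two X i z).2 ⟨hz, haj⟩⟩
  tfae_have 3 → 1 := by
    rintro ⟨hL, hV, h⟩
    have h12 : LefschetzConjecture H ample ∧ PowersVanish H ∧ SecondPower H ↔
        LefschetzConjecture H ample ∧ IsBB H (powFil H) ∧ (∀ F, IsBB H F → F = powFil H) :=
      (tfae_powers hS hB).out 2 1
    have h2 := h12.1 ⟨hL, hV, secondPower_of hA h⟩
    refine ⟨hL, powFil H, isBBFiltration_of (kunneth_of_lefschetz hL hS) h2.2.1 fun X i x => ?_⟩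
    exact ⟨fun hx => ⟨homTriv_of_mem (by norm_num) hx, aj_of_homPower hA hx⟩,
      fun hx => h X i x hx.1 hx.2⟩
  tfae_finish

/-- The injectivity for one Chow-Künneth decomposition implies that for all of them. -/
lemma middle_of_injective (hlow : ∀ i, LowWeights H i)
    (h : ∀ X : 𝒱.Obj, ∃ π, IsCK H X π ∧ AbelJacobiInjective H A π) (i : ℕ) :
    MiddleAbelJacobi H A i := by
  intro X hX π hπ z hz haj
  obtain ⟨ρ, hρ, h1⟩ := h X
  have h2 : z ∈ ckFil C ρ i 2 := by
    rw [hρ.mem_ckFil]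
    refine ⟨hz.1, fun j hj => ?_⟩
    by_cases hj' : 2 * i ≤ j
    · exact hlow i X ρ hρ z hz j hj'
    · have hj2 : j = X.dim := by omega
      rw [hj2]
      exact h1 i hX z hz haj
  have h3 := ckFil_stable (fun i => hlow i _) hρ hπ (j := i) (n := 2) (by
    have := dg_mem C X
    rwa [show (X.dim : ℤ) + i - i = X.dim by ring]) h2
  rw [act_dg, hπ.mem_ckFil] at h3
  exact h3.2 _ (by omega)

lemma injective_of_middle (h : ∀ i, MiddleAbelJacobi H A i) {π : ℕ → C.A (X.prod X)}
    (hπ : IsCK H X π) : AbelJacobiInjective H A π := by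
  intro i hX z hz haj
  have h1 := h i X hX π hπ z hz haj
  rwa [show 2 * i - 1 = X.dim by omega] at h1

end general

section hodge

variable {k : Type u} [Field k] {𝒱 : VarClass k} {C : TheoryData.{u, v, 0} 𝒱 ℚ}
  [hC : IsChowProj C] {H : WeilTheoryData.{u, v, 0} C ℝ} [hH : IsWeilProj H]
  {ample : ∀ X : 𝒱.Obj, Set (C.A X)} {W : ∀ X : 𝒱.Obj, H.A X → H.A X} {A : AbelJacobiData C}

include hC hH

/-- **Injectivity of the Abel-Jacobi maps in the middle dimension.** -/
theorem tfae_middle (hW : IsHodgeTheory H ample W) (hS : HasSections H ample)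
    (hP : ExistPencils H ample) (hB : HasBlochSrinivas C) (hA : IsAbelJacobi H A) :
    [KunnethConjecture H ∧ (∃ F, IsBBFiltration H A F),
      LefschetzConjecture H ample ∧ (∃ F, IsBBFiltration H A F),
      LefschetzConjecture H ample ∧ (∀ X : 𝒱.Obj, ∃ π, IsCK H X π ∧ AbelJacobiInjective H A π) ∧
        (∀ i, MiddleVanishingAll H i),
      ∀ X : 𝒱.Obj, ∃ π, IsCK H X π ∧ SemiprimeEnd C (π X.dim) ∧
        SemiprimeEnd C (middleOfSquare C π) ∧ AbelJacobiInjective H A π].TFAE := by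
  have h01 : KunnethConjecture H ∧ (∃ F, IsBB H F) ↔
      LefschetzConjecture H ample ∧ (∃ F, IsBB H F) :=
    (tfae_semiprime hW hS hP hB).out 0 1
  have h13 : LefschetzConjecture H ample ∧ (∃ F, IsBB H F) ↔
      ∀ X : 𝒱.Obj, ∃ π, IsCK H X π ∧ SemiprimeEnd C (π X.dim) ∧
        SemiprimeEnd C (middleOfSquare C π) :=
    (tfae_semiprime hW hS hP hB).out 1 3
  have he : LefschetzConjecture H ample ∧ (∃ F, IsBB H F) ↔ LefschetzConjecture H ample ∧
      (∀ X : 𝒱.Obj, ∃ π, IsCK H X π) ∧ (∀ i, MiddleVanishingAll H i) :=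
    (tfae_ends hS hP).out 0 1
  tfae_have 1 → 2 := by
    rintro ⟨hK, F, hF⟩
    have h1 := h01.1 ⟨hK, F, isBB_of hK hF⟩
    exact ⟨h1.1, F, hF⟩
  tfae_have 2 → 1 := fun ⟨hL, h⟩ => ⟨kunneth_of_lefschetz hL hS, h⟩
  tfae_have 2 → 3 := by
    rintro ⟨hL, h⟩
    obtain ⟨h1, h2⟩ := (exists_iff hL hS hA).1 h
    have h3 := he.1 ⟨hL, h1⟩
    refine ⟨hL, fun X => ?_, h3.2.2⟩
    obtain ⟨π, hπ⟩ := h3.2.1 X
    exact ⟨π, hπ, injective_of_middle h2 hπ⟩
  tfae_have 3 → 2 := by
    rintro ⟨hL, h, h2⟩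
    have h3 := he.2 ⟨hL, fun X => ⟨_, (h X).choose_spec.1⟩, h2⟩
    refine ⟨hL, (exists_iff hL hS hA).2 ⟨h3.2, ?_⟩⟩
    exact middle_of_injective ((exists_BB_iff hL hS).1 h3.2).2 h
  tfae_have 2 → 4 := by
    rintro ⟨hL, h⟩ X
    obtain ⟨h1, h2⟩ := (exists_iff hL hS hA).1 h
    have h3 := h13.1 ⟨hL, h1⟩
    obtain ⟨π, hπ, h4, h5⟩ := h3 X
    exact ⟨π, hπ, h4, h5, injective_of_middle h2 hπ⟩
  tfae_have 4 → 2 := by
    intro h
    have h3 := h13.2 fun X => by
      obtain ⟨π, hπ, h4, h5, -⟩ := h X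
      exact ⟨π, hπ, h4, h5⟩
    refine ⟨h3.1, (exists_iff h3.1 hS hA).2 ⟨h3.2, ?_⟩⟩
    refine middle_of_injective ((exists_BB_iff h3.1 hS).1 h3.2).2 fun X => ?_
    obtain ⟨π, hπ, -, -, h6⟩ := h X
    exact ⟨π, hπ, h6⟩
  tfae_finish

end hodge

end Pool.Agent.V8H79.AJ
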