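import Pool.Agent.V8H79.AJ.Defs
import Pool.Agent.V8H79.HP.Main

/-!
# Bloch-Beilinson filtrations with the Abel-Jacobi condition
-/

set_option autoImplicit false

open CategoryTheory AlgebraicGeometry

universe u v w

namespace Pool.Agent.V8H79.AJ

open Pool.Agent.H914 Pool.Agent.H914.VarClass Pool.Agent.H914.VarClass.Obj Pool.Agent.W492.BB
  Pool.Agent.W550.Corr Pool.Agent.TH133 Pool.Agent.X308.S Pool.Agent.Y148.BB Pool.Agent.V8H76.BB
  Pool.Agent.V8H79.HP

set_option linter.unusedSectionVars false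

variable {k : Type u} [Field k] {𝒱 : VarClass k} {C : TheoryData.{u, v, 0} 𝒱 ℚ} {K : Type w}
  [Field K] [hC : IsChowProj C]
  {H : WeilTheoryData.{u, v, w} C K} [hH : IsWeilProj H] {X Y Z W : 𝒱.Obj}
  {ample : ∀ X : 𝒱.Obj, Set (C.A X)} {A : AbelJacobiData C}

include hC hH

section formal

variable {F : Filtration C}

lemma homPower_le (hF : IsBBFiltration H A F) :
    ∀ (n : ℕ) (X : 𝒱.Obj) (i : ℕ), homPower H n X i ≤ F.F X i n := by
  intro n
  induction n with
  | zero =>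
    intro X i x hx
    exact (hF.zero X i x).2 hx
  | succ n ih =>
    intro X i
    apply homPower_succ_le
    intro Z j z Γ hz hΓ
    refine hF.graded Z X j i n Γ hΓ.1 ?_ z (ih Z j hz)
    intro a _
    rw [hΓ.2, TheoryData.act_zero]

lemma homNilpotent_of_BB (hF : IsBBFiltration H A F) : HomNilpotent H :=
  homNilpotent_of_powers fun X i => ⟨i + 1, fun x hx => hF.top X i x (homPower_le hF (i + 1) X i hx)⟩

/-- The projector `π_a` maps `F^n` to `F^m`, `m ≥ n`, if `a + s ≠ 2 i` for `n ≤ s < m`. -/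
lemma pi_zero (hF : IsBBFiltration H A F) {π : ℕ → C.A (X.prod X)} (hπ : IsCK H X π) {i a n : ℕ}
    (hn : ∀ s, n ≤ s → a + s ≠ 2 * i) {z : C.A X} (hz : z ∈ F.F X i n) : C.act (π a) z = 0 := by
  have hdeg : C.Deg ((X.dim : ℤ) + i - i) (π a) := by
    rw [show (X.dim : ℤ) + i - i = X.dim by ring]
    exact hπ.deg a
  have key : ∀ m : ℕ, C.act (π a) z ∈ F.F X i (n + m) := by
    intro m
    induction m with
    | zero => exact hF.stable X X i i n (π a) hdeg z hz
    | succ m ih =>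
      have h2 := hF.graded X X i i (n + m) (π a) hdeg (fun c hc =>
        hπ.act_ne a (2 * i - (n + m : ℕ)) c (by have := hn (n + m) (by omega); omega) hc) _ ih
      rw [← C.act_comp, hπ.idem] at h2
      exact h2
  exact hF.top X i _ (BB_le (H := H) F X i (show i + 1 ≤ n + (i + 1) by omega) (key (i + 1)))

lemma lowWeights_of_BB (hF : IsBBFiltration H A F) (i : ℕ) : LowWeights H i := by
  intro X π hπ z hz a ha
  exact pi_zero hF hπ (n := 1) (i := i) (fun s hs => by omega) ((hF.one X i z).2 hz)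

lemma middle_of_BB (hF : IsBBFiltration H A F) (i : ℕ) : MiddleAbelJacobi H A i := by
  intro X hX π hπ z hz haj
  exact pi_zero hF hπ (n := 2) (i := i) (fun s hs => by omega) ((hF.two X i z).2 ⟨hz, haj⟩)

end formal

lemma stable_real (hlow : ∀ i, LowWeights H i) {π : ℕ → C.A (X.prod X)}
    {ρ : ℕ → C.A (Y.prod Y)} (hπ : IsCK H X π) (hρ : IsCK H Y ρ) {e : ℤ} {φ : C.A X → C.A Y}
    {ψ : H.A X → H.A Y} (h : Realised H X Y e φ ψ) {i j n : ℕ} (hj : (j : ℤ) = i + e) {x : C.A X}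
    (hx : x ∈ ckFil C π i n) : φ x ∈ ckFil C ρ j n := by
  obtain ⟨Γ, hΓ, h1, -⟩ := h
  rw [← h1]
  refine ckFil_stable (fun i => hlow i _) hπ hρ ?_ hx
  rwa [show (X.dim : ℤ) + j - i = X.dim + e by rw [hj]; ring]

lemma shift_real (hlow : ∀ i, LowWeights H i) {π : ℕ → C.A (X.prod X)}
    {ρ : ℕ → C.A (Y.prod Y)} (hπ : IsCK H X π) (hρ : IsCK H Y ρ) {e : ℤ} {φ : C.A X → C.A Y}
    {ψ : H.A X → H.A Y} (h : Realised H X Y e φ ψ) {i j n : ℕ} (hj : (j : ℤ) = i + e)
    (hk : ∀ a ∈ H.gr X (2 * i - n), ψ a = 0) {x : C.A X}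
    (hx : x ∈ ckFil C π i n) : φ x ∈ ckFil C ρ j (n + 1) := by
  obtain ⟨Γ, hΓ, h1, h2⟩ := h
  rw [← h1]
  refine ckFil_shift (fun i => hlow i _) hπ hρ ?_ (fun a ha => ?_) hx
  · rwa [show (X.dim : ℤ) + j - i = X.dim + e by rw [hj]; ring]
  · rw [h2, hk a ha]

lemma aj_real (hA : IsAbelJacobi H A) {e : ℤ} {φ : C.A X → C.A Y}
    {ψ : H.A X → H.A Y} (h : Realised H X Y e φ ψ) {i j : ℕ} (hj : (j : ℤ) = i + e) {z : C.A X}
    (hz : HomTriv H i z) (haj : A.aj X i z = 0) : HomTriv H j (φ z) ∧ A.aj Y j (φ z) = 0 := by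
  obtain ⟨Γ, hΓ, h1, -⟩ := h
  rw [← h1]
  have h3 : C.Deg ((X.dim : ℤ) + j - i) Γ := by
    rwa [show (X.dim : ℤ) + j - i = X.dim + e by rw [hj]; ring]
  refine ⟨act_homTriv h3 hz (by ring), ?_⟩
  rw [hA.natural X Y i j Γ z h3 hz, haj, map_zero]

lemma one_of_homTriv (hlow : ∀ i, LowWeights H i) {π : ℕ → C.A (X.prod X)} (hπ : IsCK H X π)
    {i : ℕ} {z : C.A X} (hz : HomTriv H i z) : z ∈ ckFil C π i 1 := by
  rw [hπ.mem_ckFil]
  exact ⟨hz.1, fun j hj => hlow i X π hπ z hz j (by omega)⟩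

/-- The classes with trivial Abel-Jacobi image have weights at most `2 i - 2`: the case
`dim X ≥ 2 i - 1`, by induction on the dimension. -/
lemma two_of_aj_large (hL : LefschetzConjecture H ample) (hS : HasSections H ample)
    (hlow : ∀ i, LowWeights H i) (hA : IsAbelJacobi H A) (hM : ∀ i, MiddleAbelJacobi H A i)
    (hCK : ∀ X : 𝒱.Obj, ∃ π, IsCK H X π) :
    ∀ (d : ℕ) (X : 𝒱.Obj), X.dim = d → ∀ (i : ℕ) (π : ℕ → C.A (X.prod X)), IsCK H X π →
      2 * i ≤ X.dim + 1 → ∀ z : C.A X, HomTriv H i z → A.aj X i z = 0 → z ∈ ckFil C π i 2 := by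
  intro d
  induction d with
  | zero =>
    intro X hX i π hπ hi z hz haj
    have hi0 : i = 0 := by omega
    subst hi0
    have h0 : z = 0 := homTriv_zero (H := H) (by exact_mod_cast hz)
    rw [h0]
    exact Submodule.zero_mem _
  | succ d ih =>
    intro X hX i π hπ hi z hz haj
    rcases Nat.eq_zero_or_pos i with hi0 | hi0
    · subst hi0
      have h0 : z = 0 := homTriv_zero (H := H) (by exact_mod_cast hz)
      rw [h0]
      exact Submodule.zero_mem _
    by_cases hmid : X.dim + 1 = 2 * i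
    · rw [hπ.mem_ckFil]
      refine ⟨hz.1, fun j hj => ?_⟩
      by_cases hj' : 2 * i ≤ j
      · exact hlow i X π hπ z hz j hj'
      · have hj2 : j = 2 * i - 1 := by omega
        rw [hj2]
        exact hM i X hmid π hπ z hz haj
    · obtain ⟨Y, f, D, hf⟩ := hS.exists_section X (by omega)
      have hd := hf.dim
      obtain ⟨ρ, hρ⟩ := hCK Y
      have hpull : Realised H X Y 0 (C.pull f) (H.pull f) := Realised.pull f
      obtain ⟨h1, h2⟩ := aj_real hA hpull (j := i) (by ring) hz haj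
      have h3 := ih Y (by omega) i ρ hρ (by omega) _ h1 h2
      obtain ⟨G, hG, hG1⟩ := exists_retract hL (hS.deg X D hf.mem) hf hρ (2 * i) (by omega)
      have hGr : Realised H Y X 0 (C.act G) (H.act (H.cl G)) :=
        Realised.of (by rwa [add_zero])
      have h4 := stable_real hlow hρ hπ hGr (j := i) (by ring) h3
      have hdiff := (Realised.id (H := H) X).sub (by
        have := hpull.comp hGr
        rwa [add_zero] at this)
      have h5 := shift_real hlow hπ hπ hdiff (i := i) (j := i) (n := 1) (by ring) (fun a ha => by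
        rw [hG1 (2 * i - 1) (by omega) a (by
          have e1 : ((2 * i - 1 : ℕ) : ℤ) = 2 * i - (1 : ℕ) := by omega
          rwa [e1]), sub_self]) (one_of_homTriv hlow hπ hz)
      have h6 := Submodule.add_mem _ h5 h4
      rwa [sub_add_cancel] at h6

/-- The classes with trivial Abel-Jacobi image have weights at most `2 i - 2`. -/
lemma two_of_aj (hL : LefschetzConjecture H ample) (hS : HasSections H ample)
    (hlow : ∀ i, LowWeights H i) (hA : IsAbelJacobi H A) (hM : ∀ i, MiddleAbelJacobi H A i)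
    (hCK : ∀ X : 𝒱.Obj, ∃ π, IsCK H X π) {π : ℕ → C.A (X.prod X)} (hπ : IsCK H X π) {i : ℕ}
    {z : C.A X} (hz : HomTriv H i z) (haj : A.aj X i z = 0) : z ∈ ckFil C π i 2 := by
  by_cases hi : 2 * i ≤ X.dim + 1
  · exact two_of_aj_large hL hS hlow hA hM hCK X.dim X rfl i π hπ hi z hz haj
  by_cases hid : X.dim < i
  · rw [hC.gr_top X i z hz.1 (by omega)]
    exact Submodule.zero_mem _
  obtain ⟨D, hD⟩ := hS.exists_ample X (by omega)
  have hD1 := hS.deg X D hD
  set b : ℕ := 2 * X.dim + 1 - 2 * i with hb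
  have hbd : X.dim - b = 2 * i - 1 - X.dim := by omega
  obtain ⟨Λ, hΛ, -, hΛ2⟩ := hL X D hD b (by omega)
  have hΛr : Realised H X X ((b : ℤ) - X.dim) (C.act Λ) (H.act (H.cl Λ)) :=
    Realised.of (by rwa [add_sub_cancel])
  have hDr := Realised.mul (H := H) (pow_mem hD1 (X.dim - b))
  have hj : ((X.dim + 1 - i : ℕ) : ℤ) = i + ((b : ℤ) - X.dim) := by omega
  have hj' : (i : ℤ) = (X.dim + 1 - i : ℕ) + ((X.dim - b : ℕ) : ℤ) := by omega
  obtain ⟨h1, h2⟩ := aj_real hA hΛr hj hz haj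
  have h3 := two_of_aj_large hL hS hlow hA hM hCK X.dim X rfl _ π hπ (by omega) _ h1 h2
  have h4 := stable_real hlow hπ hπ hDr hj' h3
  have hdiff := (Realised.id (H := H) X).sub (by
    have := hΛr.comp hDr
    rwa [show (b : ℤ) - X.dim + ((X.dim - b : ℕ) : ℤ) = 0 by omega] at this)
  have h5 := shift_real hlow hπ hπ hdiff (i := i) (j := i) (n := 1) (by ring) (fun a ha => by
    have e1 : (2 * (X.dim : ℤ) - b) = 2 * i - (1 : ℕ) := by omega
    have h := hΛ2 a (by
      change a ∈ H.gr X (2 * X.dim - b)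
      rwa [e1])
    have h' : H.cl (D ^ (X.dim - b)) * H.act (H.cl Λ) a = a := h
    rw [h', sub_self]) (one_of_homTriv hlow hπ hz)
  have h6 := Submodule.add_mem _ h5 h4
  rwa [sub_add_cancel] at h6

/-- The filtration attached to Chow-Künneth decompositions is a Bloch-Beilinson filtration. -/
theorem isBBFiltration_fil (hL : LefschetzConjecture H ample) (hS : HasSections H ample)
    (hN : HomNilpotent H)
    (hlow : ∀ i, LowWeights H i) (hA : IsAbelJacobi H A) (hM : ∀ i, MiddleAbelJacobi H A i)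
    (P : ∀ X : 𝒱.Obj, ℕ → C.A (X.prod X)) (hP : ∀ X, IsCK H X (P X)) :
    IsBBFiltration H A (fil P hP) := by
  have hCK := fun X => (⟨P X, hP X⟩ : ∃ π, IsCK H X π)
  have hBB := isBB_fil P hP hlow fun X i a z hai hz =>
    act_eq_zero_of_lt hL hN hCK hS.deg hS.exists_section X.dim X rfl (P X) (hP X) i a z hai hz
  refine ⟨hBB.bounded.zero, hBB.bounded.one, fun X i x => ⟨fun hx => ?_, fun hx => ?_⟩,
    hBB.bounded.top, ?_, ?_⟩
  · have h1 : HomTriv H i x := (hBB.bounded.one X i x).1 (BB_le (H := H) _ X i (by omega) hx)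
    refine ⟨h1, ?_⟩
    have h2 : C.act (low C (P X) (2 * i + 1 - 2)) x = x := low_eq_of_mem (hP X) hx
    have hdeg : C.Deg ((X.dim : ℤ) + i - i) (low C (P X) (2 * i + 1 - 2)) := by
      rw [show (X.dim : ℤ) + i - i = X.dim by ring]
      exact low_mem (hP X) _
    rw [← h2, hA.natural X X i i _ x hdeg h1]
    refine hA.weight X X i i _ hdeg (fun a ha => ?_) _
    have h3 := actH_low (H := H) (hP X) (2 * i + 1 - 2) (l := 2 * (i : ℤ) - 1) ha
    rw [h3]
    split_ifs with h4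
    · have h5 : a ∈ H.gr X (2 * (i : ℤ) - 1) := ha
      rwa [H.gr_neg X _ (show 2 * (i : ℤ) - 1 < 0 by omega), Submodule.mem_bot] at h5
    · rfl
  · exact two_of_aj hL hS hlow hA hM hCK (hP X) hx.1 hx.2
  · intro X Y i j n Γ hΓ x hx
    exact ckFil_stable (fun i => hlow i _) (hP X) (hP Y) hΓ hx
  · intro X Y i j n Γ hΓ hk x hx
    exact ckFil_shift (fun i => hlow i _) (hP X) (hP Y) hΓ hk hx

/-- **The Abel-Jacobi condition.** A Bloch-Beilinson filtration with `F^2 = ker AJ` exists if and only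
if there is one without this condition, and the Abel-Jacobi maps are injective on the parts
`π_(2i-1) CH^i(X)` for the varieties of dimension `2 i - 1`. -/
theorem exists_iff (hL : LefschetzConjecture H ample) (hS : HasSections H ample)
    (hA : IsAbelJacobi H A) :
    (∃ F, IsBBFiltration H A F) ↔ (∃ F, IsBB H F) ∧ ∀ i, MiddleAbelJacobi H A i := by
  rw [exists_BB_iff hL hS]
  constructor
  · rintro ⟨F, hF⟩
    exact ⟨⟨homNilpotent_of_BB hF, lowWeights_of_BB hF⟩, middle_of_BB hF⟩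
  · rintro ⟨⟨hN, hlow⟩, hM⟩
    have hCK := exists_CK hN (kunneth_of_lefschetz hL hS)
    choose P hP using hCK
    exact ⟨_, isBBFiltration_fil hL hS hN hlow hA hM P hP⟩

end Pool.Agent.V8H79.AJ
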